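import Pool.Agent.K1H88.DW.Stm

/-! Project DW, piece SUM: sum over dyadic boxes, with a real exponent. -/

set_option autoImplicit false

namespace Pool.Agent.K1H59.DW

open Pool.Agent.K1H88.DW

theorem geo {α : ℝ} (hα : 0 < α) (M : ℝ) (n : ℕ) :
    ∑ t ∈ Finset.range n, (2 : ℝ) ^ (α * (M - (t : ℝ))) ≤
      (1 - (2 : ℝ) ^ (-α))⁻¹ * (2 : ℝ) ^ (α * M) := by
  have hρ0 : (0 : ℝ) < (2 : ℝ) ^ (-α) := Real.rpow_pos_of_pos two_pos _
  have hρ1 : (2 : ℝ) ^ (-α) < 1 :=
    Real.rpow_lt_one_of_one_lt_of_neg one_lt_two (by linarith)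
  have h : ∀ t : ℕ, (2 : ℝ) ^ (α * (M - (t : ℝ))) = 2 ^ (α * M) * ((2 : ℝ) ^ (-α)) ^ t := by
    intro t
    rw [← Real.rpow_natCast, ← Real.rpow_mul two_pos.le, ← Real.rpow_add two_pos]
    congr 1
    ring
  simp_rw [h]
  rw [← Finset.mul_sum, mul_comm]
  refine mul_le_mul_of_nonneg_right ?_ (by positivity)
  rw [geom_sum_eq hρ1.ne]
  have h1 : (0 : ℝ) < ((2 : ℝ) ^ (-α)) ^ n := by positivity
  rw [div_le_iff_of_neg (by linarith)]
  have h2 : (1 - (2 : ℝ) ^ (-α))⁻¹ * ((2 : ℝ) ^ (-α) - 1) = -1 := by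
    have : (1 - (2 : ℝ) ^ (-α)) ≠ 0 := by linarith
    field_simp
    ring
  rw [h2]
  linarith

/-- **SUM** -/
theorem t_SUM : S_SUM := by
  classical
  intro ι _ J w c α hJ hw hα
  obtain ⟨k0, hk0⟩ := hJ
  set W : ℤ := ∑ k ∈ J, (w k : ℤ) with hW
  have hW0 : 0 ≤ W := Finset.sum_nonneg fun k _ => Int.natCast_nonneg _
  set K : ℝ := c * W + c + 2 with hK
  have hK0 : 0 < K := by
    have h1 : (0 : ℝ) ≤ W := by exact_mod_cast hW0
    have h2 : (0 : ℝ) ≤ c := Nat.cast_nonneg c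
    positivity
  have hρ1 : (2 : ℝ) ^ (-α) < 1 :=
    Real.rpow_lt_one_of_one_lt_of_neg one_lt_two (by linarith)
  have hQ : 0 < (1 - (2 : ℝ) ^ (-α))⁻¹ := inv_pos.mpr (by linarith)
  set Q : ℝ := (1 - (2 : ℝ) ^ (-α))⁻¹ with hQd
  refine ⟨Q * K ^ (J.card - 1), by positivity, fun L hL => ?_⟩
  set Fl : ℤ := ⌊L⌋ with hFl
  have hFl1 : 1 ≤ Fl := by
    rw [hFl, Int.le_floor]
    exact_mod_cast hL
  set U : ℤ := Fl + c * W with hU
  have hc0 : (0 : ℤ) ≤ c := Int.natCast_nonneg c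
  have hU0 : 0 ≤ U := by positivity
  -- bounds for the coordinates
  have key : ∀ a : ι → ℤ, (∀ k, k ∉ J → a k = 0) → (∀ k ∈ J, -(c : ℤ) ≤ a k) →
      ((∑ k ∈ J, w k * a k : ℤ) : ℝ) ≤ L → (∑ k ∈ J, (w k : ℤ) * a k) ≤ Fl ∧
      -(c * W) ≤ (∑ k ∈ J, (w k : ℤ) * a k) ∧ ∀ k ∈ J, a k ≤ U := by
    intro a _ h2 h3
    have h4 : (∑ k ∈ J, (w k : ℤ) * a k) ≤ Fl := by
      rw [hFl, Int.le_floor]
      exact_mod_cast h3
    refine ⟨h4, ?_, ?_⟩
    · rw [hW, Finset.mul_sum, ← Finset.sum_neg_distrib]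
      refine Finset.sum_le_sum fun k hk => ?_
      have := h2 k hk
      have h5 : (0 : ℤ) ≤ w k := Int.natCast_nonneg _
      nlinarith
    · intro k hk
      by_contra hcon
      have hlt : U < a k := not_le.1 hcon
      have h5 : ∑ j ∈ J.erase k, (w j : ℤ) * a j + (w k : ℤ) * a k = ∑ j ∈ J, (w j : ℤ) * a j :=
        Finset.sum_erase_add _ _ hk
      have h6 : -(c * W) ≤ ∑ j ∈ J.erase k, (w j : ℤ) * a j := by
        have h7 : -(c * ∑ j ∈ J.erase k, (w j : ℤ)) ≤ ∑ j ∈ J.erase k, (w j : ℤ) * a j := by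
          rw [Finset.mul_sum, ← Finset.sum_neg_distrib]
          refine Finset.sum_le_sum fun j hj => ?_
          have := h2 j (Finset.mem_of_mem_erase hj)
          have h5 : (0 : ℤ) ≤ w j := Int.natCast_nonneg _
          nlinarith
        have h8 : ∑ j ∈ J.erase k, (w j : ℤ) ≤ W :=
          Finset.sum_le_sum_of_subset_of_nonneg (Finset.erase_subset _ _)
            (fun j _ _ => Int.natCast_nonneg _)
        nlinarith
      have h9 : (1 : ℤ) ≤ w k := by exact_mod_cast hw k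
      have h10 : a k ≤ (w k : ℤ) * a k := by nlinarith
      have : U < U := by linarith
      exact lt_irrefl _ this
  refine ⟨?_, fun A hA => ?_⟩
  · refine (Finset.finite_toSet (Fintype.piFinset
      (fun k : ι => if k ∈ J then Finset.Icc (-(c : ℤ)) U else {0}))).subset ?_
    rintro a ⟨h1, h2, h3⟩
    rw [Finset.mem_coe, Fintype.mem_piFinset]
    intro k
    by_cases hk : k ∈ J
    · rw [if_pos hk, Finset.mem_Icc]
      exact ⟨h2 k hk, (key a h1 h2 h3).2.2 k hk⟩
    · rw [if_neg hk, Finset.mem_singleton]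
      exact h1 k hk
  · set s : (ι → ℤ) → ℤ := fun a => ∑ k ∈ J, (w k : ℤ) * a k with hs
    set B : Finset (ι → ℤ) := Fintype.piFinset
      (fun k : ι => if k ∈ J.erase k0 then Finset.Icc (-(c : ℤ)) U else {0}) with hB
    set N : ℕ := (U + 1).toNat with hN
    set e : (ι → ℤ) → ℕ × (ι → ℤ) := fun a => ((Fl - s a).toNat, Function.update a k0 0) with he
    have hmaps : ∀ a ∈ A, e a ∈ Finset.range N ×ˢ B := by
      intro a ha
      obtain ⟨h1, h2, h3⟩ := hA a ha
      obtain ⟨h4, h5, h6⟩ := key a h1 h2 h3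
      rw [Finset.mem_product]
      refine ⟨?_, ?_⟩
      · rw [Finset.mem_range]
        change (Fl - s a).toNat < (U + 1).toNat
        have h7 : s a ≤ Fl := h4
        have h8 : -(c * W) ≤ s a := h5
        omega
      · rw [hB, Fintype.mem_piFinset]
        intro k
        change Function.update a k0 0 k ∈ _
        by_cases hk : k = k0
        · subst hk
          rw [Function.update_self, if_neg (Finset.notMem_erase k J)]
          exact Finset.mem_singleton_self 0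
        · rw [Function.update_of_ne hk]
          by_cases hkJ : k ∈ J
          · rw [if_pos (Finset.mem_erase.2 ⟨hk, hkJ⟩), Finset.mem_Icc]
            exact ⟨h2 k hkJ, h6 k hkJ⟩
          · rw [if_neg (fun h => hkJ (Finset.mem_of_mem_erase h)), Finset.mem_singleton]
            exact h1 k hkJ
    have hinj : Set.InjOn e (A : Set (ι → ℤ)) := by
      intro a ha a' ha' hea
      obtain ⟨h1, h2, h3⟩ := hA a ha
      obtain ⟨h1', h2', h3'⟩ := hA a' ha'
      have h4 : s a ≤ Fl := (key a h1 h2 h3).1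
      have h4' : s a' ≤ Fl := (key a' h1' h2' h3').1
      have h5 : (Fl - s a).toNat = (Fl - s a').toNat := congrArg Prod.fst hea
      have h6 : Function.update a k0 0 = Function.update a' k0 0 := congrArg Prod.snd hea
      have h7 : s a = s a' := by omega
      have h8 : ∀ k, k ≠ k0 → a k = a' k := by
        intro k hk
        have := congrFun h6 k
        rwa [Function.update_of_ne hk, Function.update_of_ne hk] at this
      have h9 : ∑ j ∈ J.erase k0, (w j : ℤ) * a j = ∑ j ∈ J.erase k0, (w j : ℤ) * a' j :=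
        Finset.sum_congr rfl fun j hj => by rw [h8 j (Finset.ne_of_mem_erase hj)]
      have h10 : ∑ j ∈ J.erase k0, (w j : ℤ) * a j + (w k0 : ℤ) * a k0 = s a :=
        Finset.sum_erase_add _ _ hk0
      have h10' : ∑ j ∈ J.erase k0, (w j : ℤ) * a' j + (w k0 : ℤ) * a' k0 = s a' :=
        Finset.sum_erase_add _ _ hk0
      have h11 : (w k0 : ℤ) * a k0 = (w k0 : ℤ) * a' k0 := by linarith
      have h12 : (w k0 : ℤ) ≠ 0 := by
        have := hw k0
        omega
      have h13 : a k0 = a' k0 := mul_left_cancel₀ h12 h11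
      funext k
      by_cases hk : k = k0
      · rw [hk, h13]
      · exact h8 k hk
    have h1 : ∑ a ∈ A, (2 : ℝ) ^ (α * ((s a : ℤ) : ℝ)) =
        ∑ q ∈ A.image e, (2 : ℝ) ^ (α * ((Fl : ℝ) - (q.1 : ℝ))) := by
      rw [Finset.sum_image hinj]
      refine Finset.sum_congr rfl fun a ha => ?_
      obtain ⟨h1, h2, h3⟩ := hA a ha
      have h4 : s a ≤ Fl := (key a h1 h2 h3).1
      congr 2
      change ((s a : ℤ) : ℝ) = (Fl : ℝ) - (((Fl - s a).toNat : ℕ) : ℝ)
      have h5 : (((Fl - s a).toNat : ℕ) : ℤ) = Fl - s a := Int.toNat_of_nonneg (by omega)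
      have h6 : (((Fl - s a).toNat : ℕ) : ℝ) = (((Fl - s a : ℤ)) : ℝ) := by exact_mod_cast h5
      rw [h6]
      push_cast
      ring
    have h2 : ∑ q ∈ A.image e, (2 : ℝ) ^ (α * ((Fl : ℝ) - (q.1 : ℝ))) ≤
        ∑ q ∈ Finset.range N ×ˢ B, (2 : ℝ) ^ (α * ((Fl : ℝ) - (q.1 : ℝ))) := by
      refine Finset.sum_le_sum_of_subset_of_nonneg ?_ (fun _ _ _ => by positivity)
      intro q hq
      obtain ⟨a, ha, rfl⟩ := Finset.mem_image.1 hq
      exact hmaps a ha
    have h3 : ∑ q ∈ Finset.range N ×ˢ B, (2 : ℝ) ^ (α * ((Fl : ℝ) - (q.1 : ℝ))) =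
        B.card * ∑ t ∈ Finset.range N, (2 : ℝ) ^ (α * ((Fl : ℝ) - (t : ℝ))) := by
      rw [Finset.sum_product, Finset.mul_sum]
      refine Finset.sum_congr rfl fun t _ => ?_
      simp only [Finset.sum_const, nsmul_eq_mul]
    have h4 : (B.card : ℝ) ≤ (K * L) ^ (J.card - 1) := by
      have h5 : B.card = (U + 1 - -(c : ℤ)).toNat ^ (J.card - 1) := by
        rw [hB, Fintype.card_piFinset]
        have h6 : ∀ k : ι, (if k ∈ J.erase k0 then Finset.Icc (-(c : ℤ)) U else {0}).card =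
            if k ∈ J.erase k0 then (U + 1 - -(c : ℤ)).toNat else 1 := by
          intro k
          by_cases hk : k ∈ J.erase k0
          · rw [if_pos hk, if_pos hk, Int.card_Icc]
          · rw [if_neg hk, if_neg hk, Finset.card_singleton]
        rw [Finset.prod_congr rfl (fun k _ => h6 k), Finset.prod_ite_mem, Finset.univ_inter,
          Finset.prod_const, Finset.card_erase_of_mem hk0]
      rw [h5, Nat.cast_pow]
      refine pow_le_pow_left₀ (Nat.cast_nonneg _) ?_ _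
      have h6 : (((U + 1 - -(c : ℤ)).toNat : ℕ) : ℝ) = ((U + 1 - -(c : ℤ) : ℤ) : ℝ) := by
        have : (((U + 1 - -(c : ℤ)).toNat : ℕ) : ℤ) = U + 1 - -(c : ℤ) :=
          Int.toNat_of_nonneg (by omega)
        exact_mod_cast this
      rw [h6, hU, hK]
      push_cast
      have h7 : (Fl : ℝ) ≤ L := Int.floor_le L
      have h8 : (0 : ℝ) ≤ W := by exact_mod_cast hW0
      have h9 : (0 : ℝ) ≤ c := Nat.cast_nonneg c
      nlinarith [mul_nonneg h9 h8, mul_nonneg (mul_nonneg h9 h8) (sub_nonneg.2 hL),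
        mul_nonneg h9 (sub_nonneg.2 hL)]
    have h5 : (2 : ℝ) ^ (α * (Fl : ℝ)) ≤ 2 ^ (α * L) :=
      Real.rpow_le_rpow_of_exponent_le one_le_two
        (mul_le_mul_of_nonneg_left (Int.floor_le L) hα.le)
    have h6 : (0 : ℝ) ≤ (K * L) ^ (J.card - 1) := by positivity
    have h7 : ∑ a ∈ A, (2 : ℝ) ^ (α * ((∑ k ∈ J, (w k : ℤ) * a k : ℤ) : ℝ)) ≤
        (K * L) ^ (J.card - 1) * (Q * 2 ^ (α * (Fl : ℝ))) := by
      refine (h1.trans_le h2).trans ?_
      rw [h3]
      exact mul_le_mul h4 (geo hα Fl N) (Finset.sum_nonneg fun _ _ => by positivity) h6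
    refine h7.trans ?_
    calc (K * L) ^ (J.card - 1) * (Q * 2 ^ (α * (Fl : ℝ))) ≤
          (K * L) ^ (J.card - 1) * (Q * 2 ^ (α * L)) := by
          gcongr
      _ = Q * K ^ (J.card - 1) * 2 ^ (α * L) * L ^ (J.card - 1) := by
          rw [mul_pow]; ring

end Pool.Agent.K1H59.DW
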